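import Pool.Agent.PST.StmtsU
import Pool.Agent.Helper30_PSS.S3All
import Pool.Agent.Helper41_PSS.PRQ
import Pool.Agent.Helper28_PSS.BLK

/-!
# Squad PST, block U: the rows BLW, GFX (helper30, edits of BLV by helper59 and GFV by helper49)

`BLV` and `GFV` without the hypothesis that `E` acts through an abelian group: only one element `w₀` of
`W` with `C_E(w₀) = C_E(W)` is used (remark of helper11).  If `Q < W` is closed then no `t(w₀)` is in `Q`.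
-/

set_option autoImplicit false

open scoped BigOperators TensorProduct PowerSeries

noncomputable section

namespace Pool.Agent.PST.U.H30

open Pool.Agent.PFC (tw IsTv)
open Pool.Agent.PFD.D2b (FrR)
open Pool.Agent.PSS
open Pool.Agent.PSS.S0
open Pool.Agent.PSS.S3
open Pool.Agent.PSS.S3.H41 (fx_one fx_of_comm fx_al bq_zero exists_T)
open Pool.Agent.PSS.H28 (bk_up fx_mono)

/-- BLW: the blocks of the generic fibre, from one unit `rt(w₀)`. -/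
def BlwStmt : Prop :=
  ∀ (ℓ : ℕ) [Fact ℓ.Prime] (F F' W E As K : Type) [Field F] [CharP F ℓ] [Field F']
    [CharP F' ℓ] [Algebra F⟦X⟧ F'] [CommGroup W] [Fintype W] [Group E] [Finite E] [Ring As]
    [Algebra F⟦X⟧ As] [Fintype K] (ψ : E →* MulAut W) (γ : W →* As) (lam : As →ₗ[F⟦X⟧] F⟦X⟧)
    (x y : K → As) (w₀ : W), Function.Injective (algebraMap F⟦X⟧ F') → IsPGroup ℓ W →
    ¬ ℓ ∣ Nat.card E → Per F⟦X⟧ ψ γ → Uni ψ γ → RF F⟦X⟧ γ lam x y →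
    (∀ e, ψ e w₀ = w₀ → ψ e = 1) → (∀ Q : Subgroup W, ¬ Clo ψ Q → Vsh F⟦X⟧ γ Q) →
    (∃ u : F' ⊗[F⟦X⟧] As, u * ((1 : F') ⊗ₜ[F⟦X⟧] ∑ k, x k * γ w₀ * y k) = 1) →
    ∀ (Q : Subgroup W), ∀ e ∈ FxR (cw F' (bcw (R := F⟦X⟧) (S := F') γ)) ⊤,
      e * e - e ∈ BKR (cw F' (bcw (R := F⟦X⟧) (S := F') γ)) Q →
      (∀ a ∈ FxR (cw F' (bcw (R := F⟦X⟧) (S := F') γ)) Q,
        e * a - a * e ∈ BKR (cw F' (bcw (R := F⟦X⟧) (S := F') γ)) Q) →
      e ∈ BKR (cw F' (bcw (R := F⟦X⟧) (S := F') γ)) ⊤ →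
      e ∈ BKR (cw F' (bcw (R := F⟦X⟧) (S := F') γ)) Q

/-- GFX: the generic fibre is in the class, from one regular element `w₀`. -/
def GfxStmt : Prop :=
  ∀ (ℓ : ℕ) [Fact ℓ.Prime] (F F' W E As K : Type) [Field F] [CharP F ℓ] [Field F']
    [CharP F' ℓ] [Algebra F⟦X⟧ F'] [CommGroup W] [Fintype W] [Group E] [Finite E] [Ring As]
    [Algebra F⟦X⟧ As] [Fintype K] (ψ : E →* MulAut W) (γ : W →* As) (lam : As →ₗ[F⟦X⟧] F⟦X⟧)
    (x y : K → As) (w₀ : W), Function.Injective (algebraMap F⟦X⟧ F') → IsPGroup ℓ W →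
    ¬ ℓ ∣ Nat.card E → Per F⟦X⟧ ψ γ → Uni ψ γ → RF F⟦X⟧ γ lam x y →
    (∀ e, ψ e w₀ = w₀ → ψ e = 1) →
    (∀ Q : Subgroup W, ¬ Clo ψ Q → Vsh F⟦X⟧ γ Q) → Nlw F⟦X⟧ γ w₀ → Etw F γ lam →
    Rel F x y γ w₀ → Cl F' ψ (bcw (R := F⟦X⟧) (S := F') γ)

theorem blw0 (hCLC : ClcStmt) (hBLS : BlsStmt) (hGFB : GfbStmt) (hBQX : BqxStmt) (hBPU : BpuStmt)
    (hMCK : MckStmt) (hZRT : ZrtStmt) (hFCO : FcoStmt) (hFBK : FbkStmt) : BlwStmt := by
  intro ℓ _ F F' W E As K _ _ _ _ _ _ _ _ _ _ _ _ ψ γ lam x y w hinj hW hE hper0 huni0 hrf0 hw₀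
    hvsh hunt
  classical
  obtain ⟨⟨lamS, hlamS, hrf⟩, hper, huni, -⟩ := hGFB F⟦X⟧ F' W E As K ψ γ lam x y hrf0 hper0 huni0
  have hℓF' : (ℓ : F') = 0 := CharP.cast_eq_zero F' ℓ
  have hℓF : (ℓ : F) = 0 := CharP.cast_eq_zero F ℓ
  have hℓX : (ℓ : F⟦X⟧) = 0 := by
    rw [← map_natCast (PowerSeries.C (R := F)), hℓF, map_zero]
  choose n n' hn1 hn2 hn3 using huni
  intro Q
  induction Q using WellFoundedGT.induction with
  | ind Q ih =>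
  intro e he hid hcen htop
  by_cases hQ : Q = ⊤
  · rw [hQ]
    exact htop
  have hup : ∀ Q' : Subgroup W, Q < Q' →
      e ∈ BKR (cw F' (bcw (R := F⟦X⟧) (S := F') γ)) Q' := by
    intro Q' hQ'
    have heQ' : e ∈ FxR (cw F' (bcw (R := F⟦X⟧) (S := F') γ)) Q' := fx_mono _ le_top he
    refine ih Q' hQ' e he ?_ ?_ htop
    · exact bk_up _ hFCO hFBK ℓ hℓF' hW ψ hper hQ'.le hid
        (Submodule.sub_mem _ (H28.fx_mul _ Q' heQ' heQ') heQ')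
    · intro a ha
      exact bk_up _ hFCO hFBK ℓ hℓF' hW ψ hper hQ'.le (hcen a (fx_mono _ hQ'.le ha))
        (Submodule.sub_mem _ (H28.fx_mul _ Q' heQ' ha) (H28.fx_mul _ Q' ha heQ'))
  by_cases hclo : Clo ψ Q
  swap
  · exact hCLC ℓ F⟦X⟧ F' W E As ψ γ hinj hℓX hW hper0 Q (hvsh Q hclo) e he hup hcen
  -- no conjugate of `w` is in `Q`
  have hwt : ∀ t : E, ψ t w ∉ Q := by
    intro t h
    apply hQ
    rw [eq_top_iff]
    rintro v -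
    refine hclo v fun e' he' => ?_
    have h1 : ψ (t⁻¹ * e' * t) w = w := by
      rw [map_mul, map_mul, MulAut.mul_apply, MulAut.mul_apply, he' _ h, map_inv,
        MulAut.inv_apply_self]
    have h2 := hw₀ _ h1
    have h3 : ψ e' = 1 := by
      have h4 : ψ e' = ψ t * ψ (t⁻¹ * e' * t) * (ψ t)⁻¹ := by
        rw [← map_mul, ← map_inv, ← map_mul]
        congr 1
        group
      rw [h4, h2, mul_one, mul_inv_cancel]
    rw [h3]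
    rfl
  obtain ⟨D, _, _, γD, βD, hDq⟩ := hBQX F' W (F' ⊗[F⟦X⟧] As) (bcw (R := F⟦X⟧) (S := F') γ) Q
  obtain ⟨E1, hE1⟩ : ∃ E1 : Subgroup E, ∀ e, e ∈ E1 ↔ ∀ u ∈ Q, ψ e u = u :=
    ⟨{ carrier := {e | ∀ u ∈ Q, ψ e u = u}
       one_mem' := fun u _ => by rw [map_one]; rfl
       mul_mem' := fun {a b} ha hb u hu => by
         rw [map_mul, MulAut.mul_apply, hb u hu, ha u hu]
       inv_mem' := fun {a} ha u hu => by
         have h1 := ha u hu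
         rw [map_inv]
         calc (ψ a)⁻¹ u = (ψ a)⁻¹ (ψ a u) := by rw [h1]
           _ = u := MulAut.inv_apply_self _ (ψ a) u }, fun e => Iff.rfl⟩
  obtain ⟨-, -, lamD, KD, _, xD, yD, hrfD, hlamD⟩ := hBPU ℓ F' W E (F' ⊗[F⟦X⟧] As) D K ψ
    (bcw (R := F⟦X⟧) (S := F') γ) Q γD βD lamS _ _ E1 hℓF' hW hper
    (fun e => ⟨n e, n' e, hn1 e, hn2 e, hn3 e⟩) hrf hDq hE1
  obtain ⟨T, hT1, hT2⟩ := exists_T E1
  have hT3 : ∀ e : E, ∃! t, t ∈ T ∧ ∀ v ∈ Q, (ψ t)⁻¹ v = (ψ e)⁻¹ v := by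
    intro e
    have h1 : ∀ t : E, (∀ v ∈ Q, (ψ t)⁻¹ v = (ψ e)⁻¹ v) ↔ t * e⁻¹ ∈ E1 := by
      intro t
      rw [hE1]
      refine forall₂_congr fun v _ => ?_
      rw [map_mul, map_inv, MulAut.mul_apply]
      constructor
      · intro h
        rw [← h, MulAut.apply_inv_self]
      · intro h
        conv_lhs => rw [← h]
        rw [MulAut.inv_apply_self]
    simp only [h1]
    exact hT2 e
  have h1 := hMCK ℓ F' W E (F' ⊗[F⟦X⟧] As) D K KD ψ (bcw (R := F⟦X⟧) (S := F') γ) Q γD βD lamS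
    _ _ lamD xD yD n n' T hℓF' hW hper hrf hDq hrfD hlamD (fun e => ⟨hn1 e, hn2 e, hn3 e⟩) hT3
    (bcw (R := F⟦X⟧) (S := F') γ w) (fx_al w)
  set r : F' ⊗[F⟦X⟧] As := ∑ k, ((1 : F') ⊗ₜ[F⟦X⟧] x k) * (bcw (R := F⟦X⟧) (S := F') γ w) *
    ((1 : F') ⊗ₜ[F⟦X⟧] y k) with hr
  have h2 : ∀ t, βD (n t * (bcw (R := F⟦X⟧) (S := F') γ w) * n' t) = γD (ψ t w) := by
    intro t
    rw [hn3, mul_assoc, hn1, mul_one, hDq.om]
  simp only [h2] at h1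
  -- `βD e * βD r = 0`
  have h3 : βD e * βD r = 0 := by
    rw [h1, Finset.mul_sum]
    refine Finset.sum_eq_zero fun t _ => ?_
    exact hBLS ℓ F' W E (F' ⊗[F⟦X⟧] As) D KD ψ (bcw (R := F⟦X⟧) (S := F') γ) Q γD βD lamD xD yD e
      (ψ t w) hℓF' hW hper hDq hrfD he hid hcen hup (hwt t)
  -- `r` is a central unit
  have hrc : ∀ c, c * r = r * c :=
    hZRT F' W (F' ⊗[F⟦X⟧] As) K (bcw (R := F⟦X⟧) (S := F') γ) lamS _ _ hrf _ (fx_al w)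
  obtain ⟨u, hu⟩ := hunt
  have e1 : (1 : F') ⊗ₜ[F⟦X⟧] (∑ k, x k * γ w * y k) = r := by
    rw [hr, TensorProduct.tmul_sum]
    refine Finset.sum_congr rfl fun k _ => ?_
    show _ = ((1 : F') ⊗ₜ[F⟦X⟧] x k) * ((1 : F') ⊗ₜ[F⟦X⟧] γ w) * ((1 : F') ⊗ₜ[F⟦X⟧] y k)
    rw [Algebra.TensorProduct.tmul_mul_tmul, Algebra.TensorProduct.tmul_mul_tmul, one_mul, one_mul]
  rw [e1] at hu
  have hru : r * u = 1 := by rw [← hrc, hu]
  have huc : ∀ c, c * u = u * c := by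
    intro c
    calc c * u = u * r * c * u := by rw [hu, one_mul]
      _ = u * (r * c) * u := by rw [mul_assoc u r c]
      _ = u * (c * r) * u := by rw [hrc]
      _ = u * c * (r * u) := by simp only [mul_assoc]
      _ = u * c := by rw [hru, mul_one]
  have hrfx : r ∈ FxR (cw F' (bcw (R := F⟦X⟧) (S := F') γ)) Q := fx_of_comm fun v => hrc _
  have hufx : u ∈ FxR (cw F' (bcw (R := F⟦X⟧) (S := F') γ)) Q := fx_of_comm fun v => huc _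
  have h4 : βD e = 0 := by
    have h5 : βD r * βD u = 1 := by
      rw [← hDq.mul _ hrfx _ hufx, hru, hDq.one]
    calc βD e = βD e * (βD r * βD u) := by rw [h5, mul_one]
      _ = 0 := by rw [← mul_assoc, h3, zero_mul]
  exact (hDq.ker e (fx_mono _ le_top he)).1 h4

/-- Row BLW. -/
theorem blw (hCLC : ClcStmt) : BlwStmt :=
  blw0 hCLC All30.bls All30.gfb All30.bqx All30.bpu All30.mck All30.zrt All30.fco All30.fbk

theorem gfx0 (hBOT : BotStmt) (hUNC : UncStmt) (hUNR : UnrStmt) (hBLW : BlwStmt) (hGFB : GfbStmt)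
    (hZRT : ZrtStmt) : GfxStmt := by
  intro ℓ _ F F' W E As K _ _ _ _ _ _ _ _ _ _ _ _ ψ γ lam x y w₀ hinj hW hE hper0 huni0 hrf0
    hw₀ hvsh hnl het hrel
  classical
  obtain ⟨⟨lamS, hlamS, hrf⟩, hper, huni, -⟩ := hGFB F⟦X⟧ F' W E As K ψ γ lam x y hrf0 hper0 huni0
  have hℓF : (ℓ : F) = 0 := CharP.cast_eq_zero F ℓ
  have hℓX : (ℓ : F⟦X⟧) = 0 := by
    rw [← map_natCast (PowerSeries.C (R := F)), hℓF, map_zero]
  have hbot := hBOT ℓ F⟦X⟧ F' W E As ψ γ w₀ hinj hℓX hW hper0 hw₀ hvsh hnl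
  obtain ⟨u, hu⟩ := hUNC ℓ F F' W E As K ψ γ lam x y hinj hW hE hper0 huni0 hrf0 het hbot
  have hfx : ∀ w : W, γ w ∈ FxR (cw F⟦X⟧ γ) ⊤ := by
    intro w v _
    change γ v * (γ w * γ v⁻¹) = γ w
    rw [← map_mul, ← map_mul, mul_comm w, mul_inv_cancel_left]
  have hcw : ∀ (w : W) (c : As), (∑ k, x k * γ w * y k) * c = c * ∑ k, x k * γ w * y k :=
    fun w c => (hZRT F⟦X⟧ W As K γ lam x y hrf0 (γ w) (hfx w) c).symm
  have hr1 : ∑ k, x k * γ 1 * y k = ∑ k, x k * y k :=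
    Finset.sum_congr rfl fun k _ => by rw [map_one, mul_one]
  have hc1 : ∀ c : As, (∑ k, x k * y k) * c = c * ∑ k, x k * y k := by
    intro c
    have := hcw 1 c
    rwa [hr1] at this
  have hunit : ∃ u : F' ⊗[F⟦X⟧] As, u * ((1 : F') ⊗ₜ[F⟦X⟧] ∑ k, x k * γ w₀ * y k) = 1 := by
    obtain ⟨d, a, ha0, ha⟩ := hrel
    exact hUNR F F' As _ _ u d a hinj (hcw w₀) hc1 ha0 ha hu
  refine ⟨?_, hper, huni, ⟨lamS, K, inferInstance, _, _, hrf, u, ?_⟩,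
    hBLW ℓ F F' W E As K ψ γ lam x y w₀ hinj hW hE hper0 huni0 hrf0 hw₀ hvsh hunit⟩
  · obtain ⟨Ω, _, _, b, c, hfr, -⟩ := hper
    refine ⟨Submodule.fg_def.2 ⟨Set.range b, Set.finite_range b, ?_⟩⟩
    rw [eq_top_iff]
    rintro m -
    rw [← hfr.2.2 m]
    exact Submodule.sum_mem _ fun t _ => Submodule.smul_mem _ _ (Submodule.subset_span ⟨t, rfl⟩)
  · have e1 : ∑ k, (1 : F') ⊗ₜ[F⟦X⟧] x k * (1 : F') ⊗ₜ[F⟦X⟧] y k =
        (1 : F') ⊗ₜ[F⟦X⟧] ∑ k, x k * y k := by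
      rw [TensorProduct.tmul_sum]
      refine Finset.sum_congr rfl fun k _ => ?_
      rw [Algebra.TensorProduct.tmul_mul_tmul, one_mul]
    rw [e1]
    exact hu

/-- Row GFX. -/
theorem gfx (hBOT : BotStmt) (hUNC : UncStmt) (hUNR : UnrStmt) (hCLC : ClcStmt) : GfxStmt :=
  gfx0 hBOT hUNC hUNR (blw hCLC) All30.gfb All30.zrt

end Pool.Agent.PST.U.H30
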