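import Pool.Agent.PST.StmtsUD
import Pool.Agent.PST.StmtsET3
import Pool.Agent.Helper30_PSS.S3All
import Pool.Agent.Helper63_PSS.PSC

/-!
# Squad PST, block UC: ETW (helper30): etaleness of the deformation, from the closed case (block ET)
-/

set_option autoImplicit false

open scoped BigOperators TensorProduct PowerSeries

noncomputable section

namespace Pool.Agent.PST.UC.H30

open Pool.Agent.PFC (tw IsTv)
open Pool.Agent.PFD.D2 (Cdv FibG)
open Pool.Agent.PFD.D2b (FrR)
open Pool.Agent.PSS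
open Pool.Agent.PSS.S0

/-- the action on the quotient by a stable subgroup -/
theorem ex_quo {V E : Type} [CommGroup V] [Group E] (φ : E →* MulAut V) (W : Subgroup V)
    (h : ∀ e : E, ∀ w ∈ W, φ e w ∈ W) :
    ∃ φH : E →* MulAut (V ⧸ W), ∀ (e : E) (v : V), φH e (v : V ⧸ W) = (φ e v : V ⧸ W) := by
  have hm : ∀ e : E, W ≤ W.comap (φ e).toMonoidHom := fun e w hw => h e w hw
  have hi : ∀ (e : E) (v : V), φ e⁻¹ (φ e v) = v := by
    intro e v
    rw [← MulAut.mul_apply, ← map_mul, inv_mul_cancel, map_one, MulAut.one_apply]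
  have hi' : ∀ (e : E) (v : V), φ e (φ e⁻¹ v) = v := by
    intro e v
    rw [← MulAut.mul_apply, ← map_mul, mul_inv_cancel, map_one, MulAut.one_apply]
  let g : E → (V ⧸ W →* V ⧸ W) := fun e => QuotientGroup.map W W (φ e).toMonoidHom (hm e)
  have hg : ∀ (e : E) (v : V), g e (v : V ⧸ W) = (φ e v : V ⧸ W) := fun e v => rfl
  refine ⟨{
    toFun := fun e =>
      { toFun := g e
        invFun := g e⁻¹
        left_inv := ?_
        right_inv := ?_
        map_mul' := fun a b => map_mul (g e) a b }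
    map_one' := ?_
    map_mul' := ?_ }, fun e v => hg e v⟩
  · intro x
    induction x using QuotientGroup.induction_on with
    | H v => rw [hg, hg, hi]
  · intro x
    induction x using QuotientGroup.induction_on with
    | H v => rw [hg, hg, hi']
  · ext x
    induction x using QuotientGroup.induction_on with
    | H v =>
      show g 1 (v : V ⧸ W) = (v : V ⧸ W)
      rw [hg, map_one, MulAut.one_apply]
  · intro e f
    ext x
    induction x using QuotientGroup.induction_on with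
    | H v =>
      show g (e * f) (v : V ⧸ W) = g e (g f (v : V ⧸ W))
      rw [hg, hg, hg, map_mul, MulAut.mul_apply]

/-- the image of `Q` in `A(Q)` is central -/
theorem bq_cen {R V A B : Type} [CommRing R] [CommGroup V] [Ring A] [Algebra R A] [Ring B]
    [Algebra R B] {α : V →* A} {Q : Subgroup V} {αB : V →* B} {β : A → B}
    (h : IsBQ R α Q αB β) : ∀ n ∈ Q, ∀ b, αB n * b = b * αB n := by
  intro n hn b
  obtain ⟨a, ha, rfl⟩ := h.surj b
  have hfn : α n ∈ FxR (cw R α) Q := by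
    intro u _
    show α u * (α n * α u⁻¹) = α n
    rw [← mul_assoc, ← map_mul, mul_comm u n, map_mul, mul_assoc, ← map_mul, mul_inv_cancel,
      map_one, mul_one]
  have hcm : α n * a = a * α n := by
    have h1 : α n * (a * α n⁻¹) = a := ha n hn
    calc α n * a = α n * (a * (α n⁻¹ * α n)) := by
          rw [← map_mul, inv_mul_cancel, map_one, mul_one]
      _ = (α n * (a * α n⁻¹)) * α n := by simp only [mul_assoc]
      _ = a * α n := by rw [h1]
  rw [← h.om, ← h.mul _ hfn _ ha, ← h.mul _ ha _ hfn, hcm]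

theorem etw (prt : PrtStmt) (qfa : QfaStmt) (hsf : HsfStmt) (qrg : QrgStmt) (qtx : QtxStmt)
    (qtf : QtfStmt) (qcl : QclStmt) (bfn : BfnStmt) (qlu : QluStmt) (bqx : BqxStmt)
    (bcl : BclStmt) (psc : PscStmt) (etc : ET.EtcStmt) : EtwStmt := by
  classical
  intro ℓ _ F V E A As K K0 _ _ _ _ _ _ _ _ _ _ _ _ _ _ _ φ α W _ ψ γ q lam lam0 x y x0 y0 hV
    hE hWt D Bs KB _ _ _ γB βs lamB xB yB hBs hRFB hlamB
  have hℓ : (ℓ : F) = 0 := CharP.cast_eq_zero F ℓ
  obtain ⟨B, _, _, αB, β, hB⟩ := bqx F V A α W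
  -- the stabiliser of `W`
  let E1 : Subgroup E :=
    { carrier := {e | ∀ w ∈ W, φ e w = w}
      one_mem' := fun w _ => by rw [map_one, MulAut.one_apply]
      mul_mem' := by
        intro a b ha hb w hw
        rw [map_mul, MulAut.mul_apply, hb w hw, ha w hw]
      inv_mem' := by
        intro a ha w hw
        have h1 := ha w hw
        rw [map_inv]
        exact (MulEquiv.symm_apply_eq _).2 h1.symm }
  have hE1 : ∀ e, e ∈ E1 ↔ ∀ w ∈ W, φ e w = w := fun e => Iff.rfl
  have hcB : Cl F (φ.comp E1.subtype) αB := bcl ℓ F V E A B φ α W αB β E1 hV hE D.cl hB hE1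
  have hcE1 : ¬ ℓ ∣ Nat.card E1 := fun h => hE (h.trans (Subgroup.card_subgroup_dvd_card E1))
  -- the quotients
  obtain ⟨H, _, _, αH, π, hH⟩ := qtx F V B αB W (bq_cen hB)
  obtain ⟨Hs, _, _, γH, πs, hHs⟩ := qtx F⟦X⟧ W Bs γB ⊤ (bq_cen hBs)
  obtain ⟨qB, hqB, hqBsc, hqBs, hqBk, hqBw⟩ := prt ℓ F V E A As B Bs α W ψ γ q αB β γB βs hV
    D.per D.sc D.surj D.ker D.qw hB hBs
  obtain ⟨q1, hq1, hq1sc, hq1s, hq1k⟩ := qfa F V B Bs H Hs W αB γB qB αH γH π πs hH hHs hqBsc
    hqBs hqBk hqBw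
  obtain ⟨c, hcπ, hcκ⟩ := psc F
  let f : FibG Hs H c :=
    { q := q1
      sc := fun r => by rw [hq1sc, hcκ]
      surj := hq1s
      ker := fun h hh => by rw [hcπ]; exact hq1k h hh }
  -- the class of `H`
  obtain ⟨φH, hφH⟩ := ex_quo (φ.comp E1.subtype) W (fun e w hw => by
    show φ (e : E) w ∈ W
    rw [e.2 w hw]
    exact hw)
  have hft : Fintype (V ⧸ W) := Fintype.ofFinite _
  obtain ⟨Ω, _, _, b, cc, hfr⟩ := bfn ℓ F V E A B K0 φ α W αB β lam0 x0 y0 E1 hℓ hV D.cl.per
    D.rf0 hB hE1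
  have hClH : Cl F φH αH := qcl ℓ F V E1 B H Ω (φ.comp E1.subtype) αB W φH αH π b cc hV hcE1 hcB
    hfr hH (fun e n hn => e.2 n hn) hφH
  -- the form of `Hs`
  have hsub : Subsingleton (W ⧸ (⊤ : Subgroup W)) := QuotientGroup.subsingleton_quotient_top
  have hfs : Fintype (W ⧸ (⊤ : Subgroup W)) := Fintype.ofFinite _
  obtain ⟨T, hT, hRFH⟩ := qtf F⟦X⟧ W Bs Hs KB γB ⊤ γH πs lamB xB yB hHs hRFB
  have hγ1 : ∀ v : W ⧸ (⊤ : Subgroup W), γH v = 1 := by
    intro v
    rw [Subsingleton.elim v 1, map_one]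
  have huniv : ∀ g : W ⧸ (⊤ : Subgroup W) → Hs, ∑ v, g v = g 1 := by
    intro g
    have : (Finset.univ : Finset (W ⧸ (⊤ : Subgroup W))) = {1} := by
      ext v
      simp [Subsingleton.elim v 1]
    rw [this, Finset.sum_singleton]
  have hS : ET.SFr F⟦X⟧ T (fun k => πs (xB k)) (fun k => πs (yB k)) := by
    refine ⟨hRFH.sym, fun a => ?_, fun a => ?_⟩
    · refine Eq.trans (Finset.sum_congr rfl fun k _ => ?_) (hRFH.e1 a)
      rw [huniv, hγ1, hγ1, one_mul, mul_one]
    · refine Eq.trans (Finset.sum_congr rfl fun k _ => ?_) (hRFH.e2 a)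
      rw [huniv, hγ1, hγ1, one_mul, mul_one]
  obtain ⟨hfin, hfree⟩ := hsf F Hs KB T _ _ hS.e1
  -- the regularity datum
  obtain ⟨r, la, xx, t, h1, h2, h3, h4, h5, h6, h7⟩ := qrg ℓ F V E A As B Bs H Hs φ α W ψ γ q αB
    β γB βs qB αH γH π πs q1 hV D.ch.pw D.cl D.per D.sc hq1sc hB hBs hqB hH hHs hq1 D.reg
  have hED : ET.EDat F la xx t := ⟨h1, h2, h3, h4, h5⟩
  have hRg : ET.Rgd ℓ c f αH la xx t := by
    refine ⟨fun v => ?_, fun u v => ?_⟩
    · obtain ⟨w, G, hw, hG, hq⟩ := h6 v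
      refine ⟨w, G, hw, ?_, hq⟩
      rw [hcπ]
      exact hG
    · obtain ⟨a, b, d, ha, hb, hd, hq⟩ := h7 u v
      refine ⟨a, b, d, ha, hb, ?_, hq⟩
      rw [hcπ]
      exact hd
  -- block ET
  have hcp : CharP F⟦X⟧ ℓ :=
    charP_of_injective_ringHom (PowerSeries.C_injective (R := F)) ℓ
  have hpH : IsPGroup ℓ (V ⧸ W) := hV.to_quotient W
  have hel : ∀ v : V ⧸ W, v ^ ℓ = 1 := by
    intro v
    induction v using QuotientGroup.induction_on with
    | H v =>
      rw [← QuotientGroup.mk_pow]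
      exact (QuotientGroup.eq_one_iff _).2 (D.ch.pw v)
  have hfree1 : ∀ (e : E1) (v : V ⧸ W), φH e v = v → v = 1 ∨ φH e = 1 := by
    intro e v hv
    induction v using QuotientGroup.induction_on with
    | H v =>
      by_cases hvW : v ∈ W
      · exact Or.inl ((QuotientGroup.eq_one_iff _).2 hvW)
      · right
        have h8 : φ (e : E) v * v⁻¹ ∈ W := by
          rw [hφH] at hv
          have h9 := QuotientGroup.eq.1 hv.symm
          rwa [mul_comm] at h9
        have h10 := D.ch.fr e v hvW h8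
        ext x
        induction x using QuotientGroup.induction_on with
        | H u =>
          rw [hφH, MulAut.one_apply]
          refine (QuotientGroup.eq.2 ?_).symm
          rw [mul_comm]
          exact h10 u
  obtain ⟨z, hzu, hzc, hz⟩ := etc ℓ r F⟦X⟧ F (V ⧸ W) E1 H Hs KB c f φH αH la xx t T
    (fun k => πs (xB k)) (fun k => πs (yB k))
    (fun a => by
      rw [hcκ]
      exact PowerSeries.constantCoeff_C a)
    hpH hel hcE1 hfree1 hClH hED hRg hS
  obtain ⟨z', hz'⟩ := hzu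
  refine qlu ℓ F (⊤ : Subgroup W) Bs Hs (γB.comp (⊤ : Subgroup W).subtype) πs
    (∑ k, xB k * yB k) r ((z'⁻¹ : Hsˣ) : Hs) ((hV.to_subgroup W).to_subgroup ⊤) ?_ hHs.surj
    (fun a ha => (hHs.ker a).1 ha) ?_
  · intro n b
    exact hHs.cen n n.2 b
  · have h11 : πs (∑ k, xB k * yB k) = ∑ k, πs (xB k) * πs (yB k) := by
      rw [map_sum]
      exact Finset.sum_congr rfl fun k _ => map_mul _ _ _
    rw [h11, hz, hcπ, mul_smul_comm, ← hz', Units.inv_mul]

end Pool.Agent.PST.UC.H30
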