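import Pool.Agent.Helper30_PST.BLW
import Pool.Agent.PST.StmtsCL
import Pool.Agent.PST.Etw

/-!
# Squad PST, block U: GFW (helper30): the generic fibre of the deformation is in the class
-/

set_option autoImplicit false

open scoped BigOperators TensorProduct PowerSeries

noncomputable section

namespace Pool.Agent.PST.U.H30

open Pool.Agent.PFC (tw IsTv)
open Pool.Agent.PFD.D2 (Cdv FibG)
open Pool.Agent.PFD.D2b (FrR)
open Pool.Agent.PSS
open Pool.Agent.PSS.S0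
open Pool.Agent.PSS.S3
open Pool.Agent.PST.UC (EtwStmt)

/-- GFW with a regular element `w₀` as a hypothesis. -/
def Gw0Stmt : Prop :=
  ∀ (ℓ : ℕ) [Fact ℓ.Prime] (F F' V E A As K K0 Ω : Type) [Field F] [IsAlgClosed F] [CharP F ℓ]
    [Field F'] [IsAlgClosed F'] [CharP F' ℓ] [Algebra F⟦X⟧ F'] [CommGroup V]
    [Fintype V] [Group E] [Fintype E] [Ring A] [Algebra F A] [Ring As] [Algebra F⟦X⟧ As]
    [Module.Finite F⟦X⟧ As] [Module.Free F⟦X⟧ As] [Fintype K] [Fintype K0] [Fintype Ω]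
    [MulAction (V × V) Ω] (φ : E →* MulAut V) (α : V →* A) (W : Subgroup V) [Fintype W]
    (ψ : E →* MulAut W) (γ : W →* As) (q : As →+* A) (lam : As →ₗ[F⟦X⟧] F⟦X⟧)
    (lam0 : A →ₗ[F] F) (x y : K → As) (x0 y0 : K0 → A) (b : Ω → A) (cc : Ω → (A →ₗ[F] F))
    (w₀ : W),
    Function.Injective (algebraMap F⟦X⟧ F') → IsPGroup ℓ V → ¬ ℓ ∣ Nat.card E → W ≠ ⊤ →
    Dpt ℓ F φ α W ψ γ q lam lam0 x y x0 y0 → FrR (bw F α) b cc →
    (∀ e, ψ e w₀ = w₀ → ψ e = 1) →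
    Nonempty (Olf ℓ F α W γ q lam lam0 x y x0 y0 b cc) →
    Cl F' ψ (bcw (R := F⟦X⟧) (S := F') γ)

theorem gw0 (gfx : GfxStmt) (olu : OluStmt) (clo : CloStmt) (rtu : RtuStmt) (etw : EtwStmt) :
    Gw0Stmt := by
  classical
  intro ℓ _ F F' V E A As K K0 Ω _ _ _ _ _ _ _ _ _ _ _ _ _ _ _ _ _ _ _ _ _ φ α W _ ψ γ q lam
    lam0 x y x0 y0 b cc w₀ hinj hV hE hWt D hfr hw₀ hO
  obtain ⟨O⟩ := hO
  let _ := O.iR
  let _ := O.iA
  let _ := O.iM
  let _ := O.jK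
  let _ := O.jR
  let _ := O.jB
  let _ := O.jA
  let _ := O.jM
  have _ := O.iD
  have _ := O.iP
  have _ := O.iC
  have _ := O.iF
  have _ := O.iL
  have _ := O.jZ
  -- `A` is finite-dimensional
  have hfd : FiniteDimensional F A := by
    refine ⟨⟨Finset.univ.image b, ?_⟩⟩
    rw [eq_top_iff]
    intro n _
    rw [← hfr.2.2 n]
    refine Submodule.sum_mem _ fun ω _ => Submodule.smul_mem _ _ (Submodule.subset_span ?_)
    simp
  -- the unit `rt(1)` of `A`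
  have hu1 : ∃ u, u * ∑ k, x0 k * y0 k = 1 := by
    refine ⟨O.f.q O.u', ?_⟩
    have h := congrArg O.f.q O.unt
    rw [map_mul, map_one] at h
    have h2 : O.f.q (rt O.x' O.y' 1) = ∑ k, x0 k * y0 k := by
      unfold rt
      rw [map_sum]
      refine Finset.sum_congr rfl fun k _ => ?_
      rw [map_mul, map_mul, map_one, mul_one, O.lft.qx, O.lft.qy]
    rwa [h2] at h
  have hu := rtu ℓ F V E A K0 φ α lam0 x0 y0 hV hE D.cl D.rf0 hu1
  have hxs : (fun k => O.θ (O.xs k)) = x := funext O.xr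
  have hys : (fun k => O.θ (O.ys k)) = y := funext O.yr
  have hol := olu ℓ O.R F V A As O.A' O.KK O.BB K0 K Ω W O.cv α lam0 x0 y0 b cc O.f O.α' O.lam'
    O.x' O.y' O.b' O.cc' O.u' O.C O.D O.P O.m γ q O.θ O.Λ O.xs O.ys O.hp hV O.lft O.unt
    (fun w => hu w) O.trv O.mm D.ker O.θs O.θj O.θk O.θw O.θq O.rfs w₀
  rw [hxs, hys] at hol
  exact gfx ℓ F F' W E As K ψ γ lam x y w₀ hinj (hV.to_subgroup W) hE D.per D.uni D.rf hw₀
    (clo ℓ F V E A As φ α W ψ γ q hV hE D.cl D.rs D.per D.sc D.surj D.ker D.qw) hol.1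
    (etw ℓ F V E A As K K0 φ α W ψ γ q lam lam0 x y x0 y0 hV hE hWt D) hol.2

/-- GFW -/
theorem gfw (gfx : GfxStmt) (olu : OluStmt) (clo : CloStmt) (rtu : RtuStmt) (etw : EtwStmt) :
    GfwStmt := by
  intro ℓ _ F F' V E A As K K0 Ω _ _ _ _ _ _ _ _ _ _ _ _ _ _ _ _ _ _ _ _ _ φ α W _ ψ γ q lam
    lam0 x y x0 y0 b cc hinj hV hE hWt D hfr _ hO
  obtain ⟨w, hw, hg⟩ := D.ch.gen
  refine gw0 gfx olu clo rtu etw ℓ F F' V E A As K K0 Ω φ α W ψ γ q lam lam0 x y x0 y0 b cc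
    ⟨w, hw⟩ hinj hV hE hWt D hfr (fun e he => ?_) hO
  have h1 : φ e w = w := by
    rw [← D.rs e ⟨w, hw⟩, he]
  ext u
  rw [D.rs e u, MulAut.one_apply]
  exact hg e h1 u u.2

end Pool.Agent.PST.U.H30
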