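import Pool.Agent.PST.StmtsU
import Pool.Agent.PSS.StmtsOB
import Pool.Agent.Helper87_PSS.H1W
import Pool.Agent.Helper95_PSS.CSU
import Pool.Agent.Helper95_PSS.CFR
import Pool.Agent.Helper63_PSS.FXL
import Pool.Agent.Helper63_PSS.FUN
import Pool.Agent.Helper20_PSS.CSR
import Pool.Agent.Helper86_PSS.RTC
import Pool.Agent.Helper52_PSS.RFS
import Pool.Agent.Helper52_PSS.FTR
import Pool.Agent.Helper52_PSS.RFM
import Pool.Agent.Helper92_PSS.FMX
import Pool.Agent.Helper92_PSS.RED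
import Pool.Agent.Helper84_PSS.RFE
import Pool.Agent.Helper32_PSS.FSR
import Pool.Agent.Helper75_PSS.SPF
import Pool.Agent.Helper29_PSS.FRE
import Pool.Agent.Helper39_PSS.UNJ
import Pool.Agent.Helper19_PSS.UZL

/-! PST, block U, row OLU (311), in the form of `Olf` (helper30, from the file of helper28): the properties of
a deformation which has a lift to a complete discrete valuation ring of characteristic `0`. -/

set_option autoImplicit false

open scoped BigOperators TensorProduct PowerSeries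

noncomputable section

namespace Pool.Agent.PST.U.H30L

open Pool.Agent.PFC (tw IsTv)
open Pool.Agent.PFD.D2 (Cdv FibG wittCdv wittCdv_π witt_charZero)
open Pool.Agent.PFD.D2b (FrR)
open Pool.Agent.PSS
open Pool.Agent.PSS.Dm (cst)

theorem csr' : CsrStmt := Pool.Agent.PSS.H20.csr
theorem rtc' : RtcStmt := Pool.Agent.PSS.H86.rtc csr'
theorem csu' : CsuStmt := Pool.Agent.PSS.H95.csu csr' rtc'
theorem rfe' : RfeStmt := Pool.Agent.PSS.H84.rfe
theorem unj' : UnjStmt := Pool.Agent.PSS.H39.unj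
theorem rfm' : RfmStmt := Pool.Agent.PSS.H52.rfm rfe' unj'
theorem fxl' : FxlStmt := Pool.Agent.PSS.H63.fxl
theorem fun' : FunStmt := Pool.Agent.PSS.H63.funs
theorem fre' : FreStmt := Pool.Agent.PSS.H29.fre
theorem spf' : SpfStmt := Pool.Agent.PSS.H75.spf
theorem rmp' : RmpStmt := Pool.Agent.PSS.H75.rmp
theorem fmx' : FmxStmt := Pool.Agent.PSS.H92.fmx fun' rfe'
theorem fsr' : FsrStmt := Pool.Agent.PSS.H32.fsr rfm' spf' fre'
theorem red' : RedStmt := Pool.Agent.PSS.H92.red fun' rmp'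
theorem cfr' : CfrStmt := Pool.Agent.PSS.H95.cfr fun'
theorem uzl' : UzlStmt := Pool.Agent.PSS.H19.uzl csu' unj'
theorem h1w' : H1wStmt := Pool.Agent.PSS.H87.h1w csu' fxl'

section aux

variable {R F V A A₀ κ Ω : Type} [CommRing R] [Field F] {cv : Cdv R F} [CommGroup V]
  [Fintype V] [Ring A₀] [Algebra F A₀] [Ring A] [Algebra R A] [Fintype κ] [Fintype Ω]
  [MulAction (V × V) Ω] {α₀ : V →* A₀} {lam₀ : A₀ →ₗ[F] F} {x₀ y₀ : κ → A₀} {b₀ : Ω → A₀}
  {c₀ : Ω → (A₀ →ₗ[F] F)} {f : FibG A A₀ cv} {α : V →* A} {lam : A →ₗ[R] R} {x y : κ → A}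
  {b : Ω → A} {c : Ω → (A →ₗ[R] R)}

/-- the frame of the special fibre -/
theorem fr_red (hL : LiftV cv α₀ lam₀ x₀ y₀ b₀ c₀ f α lam x y b c) : FrR (bw F α₀) b₀ c₀ := by
  have hsm : ∀ (r : R) (a : A), f.q (r • a) = cv.κ r • f.q a := by
    intro r a
    rw [Algebra.smul_def, map_mul, f.sc, ← Algebra.smul_def]
  have hqbw : ∀ (h : V × V) (a : A), f.q (bw R α h a) = bw F α₀ h (f.q a) := by
    intro h a
    show f.q (α h.1 * (a * α h.2⁻¹)) = α₀ h.1 * (f.q a * α₀ h.2⁻¹)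
    rw [map_mul, map_mul, hL.qa, hL.qa]
  refine ⟨fun g t => ?_, fun g t n => ?_, fun n => ?_⟩
  · rw [← hL.qb, hL.fr.1, hqbw, hL.qb]
  · obtain ⟨a, rfl⟩ := f.surj n
    have h := congrArg cv.κ (hL.fr.2.1 g t a)
    rw [hL.qc, hL.qc, hqbw] at h
    exact h
  · obtain ⟨a, rfl⟩ := f.surj n
    have h := congrArg f.q (hL.fr.2.2 a)
    rw [map_sum] at h
    refine Eq.trans (Finset.sum_congr rfl fun ω _ => ?_) h
    rw [hsm, hL.qb, hL.qc]

/-- the relative traces of the special fibre -/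
theorem rt_red (hL : LiftV cv α₀ lam₀ x₀ y₀ b₀ c₀ f α lam x y b c) (v : V) :
    f.q (rt x y (α v)) = rt x₀ y₀ (α₀ v) := by
  unfold rt
  rw [map_sum]
  refine Finset.sum_congr rfl fun i _ => ?_
  rw [map_mul, map_mul, hL.qa, hL.qx, hL.qy]

/-- an element with a left inverse modulo `π` has a left inverse -/
theorem lft_inv [Module.Finite R A] (s : A) (s₀ u₀ : A₀) (f : FibG A A₀ cv) (hs : f.q s = s₀)
    (hu : u₀ * s₀ = 1) : ∃ u : A, u * s = 1 := by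
  have hκπ : cv.κ cv.π = 0 := (cv.ker _).2 ⟨1, by rw [mul_one]⟩
  have hunit : ∀ r, IsUnit (1 + cv.π * r) := by
    intro r
    apply cv.loc
    rw [map_add, map_mul, hκπ, zero_mul, add_zero, map_one]
    exact one_ne_zero
  obtain ⟨u₁, hu₁⟩ := f.surj u₀
  have hq : f.q (u₁ * s - 1) = 0 := by
    rw [map_sub, map_mul, hu₁, hs, hu, map_one, sub_self]
  obtain ⟨d, hd⟩ := f.ker _ hq
  have hbij := unj' R A cv.π hunit (LinearMap.mulRight R (u₁ * s)) (by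
    intro a
    refine ⟨a * d, ?_⟩
    have e1 : a * (u₁ * s) - a = a * (u₁ * s - 1) := by
      rw [mul_sub, mul_one]
    rw [LinearMap.mulRight_apply, e1, hd, mul_smul_comm])
  obtain ⟨t, ht⟩ := hbij.2 1
  refine ⟨t * u₁, ?_⟩
  rw [LinearMap.mulRight_apply] at ht
  rw [mul_assoc, ht]

end aux

/-- reduction of a frame -/
theorem red_fr {S T G L L₀ Ω : Type} [CommRing S] [CommRing T] [CommGroup G] [Ring L]
    [Algebra S L] [Ring L₀] [Algebra T L₀] [Fintype Ω] [MulAction (G × G) Ω] (κ : S →+* T)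
    (hκ : Function.Surjective κ) (om : G →* L) (om₀ : G →* L₀) (θ : L →+* L₀)
    (hθs : ∀ (r : S) a, θ (r • a) = κ r • θ a) (hθj : Function.Surjective θ)
    (hθw : ∀ w, θ (om w) = om₀ w) (b : Ω → L) (c : Ω → (L →ₗ[S] S))
    (hfr : FrR (bw S om) b c) (hk : ∀ a, θ a = 0 → ∀ ω, κ (c ω a) = 0) :
    ∃ c₀ : Ω → (L₀ →ₗ[T] T), FrR (bw T om₀) (fun ω => θ (b ω)) c₀ := by
  have hk2 : ∀ a a' ω, θ a = θ a' → κ (c ω a) = κ (c ω a') := by
    intro a a' ω h
    have h1 := hk (a - a') (by rw [map_sub, h, sub_self]) ω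
    rw [map_sub, map_sub] at h1
    exact sub_eq_zero.1 h1
  obtain ⟨s, hs⟩ := hθj.hasRightInverse
  obtain ⟨τ, hτ⟩ := hκ.hasRightInverse
  let c₀ : Ω → (L₀ →ₗ[T] T) := fun ω =>
    { toFun := fun a => κ (c ω (s a))
      map_add' := by
        intro a a'
        rw [← map_add, ← map_add]
        exact hk2 _ _ ω (by rw [map_add, hs, hs, hs])
      map_smul' := by
        intro r a
        have h1 : κ (c ω (s (r • a))) = κ (c ω (τ r • s a)) :=
          hk2 _ _ ω (by rw [hs, hθs, hτ, hs])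
        rw [h1, map_smul, smul_eq_mul, map_mul, hτ]
        rfl }
  have hc₀ : ∀ ω a, c₀ ω (θ a) = κ (c ω a) := fun ω a => hk2 _ _ ω (hs (θ a))
  have hbw : ∀ (g : G × G) (a : L), bw T om₀ g (θ a) = θ (bw S om g a) := by
    intro g a
    show om₀ g.1 * (θ a * om₀ g.2⁻¹) = θ (om g.1 * (a * om g.2⁻¹))
    rw [map_mul, map_mul, hθw, hθw]
  refine ⟨c₀, fun g t => ?_, fun g t n => ?_, fun n => ?_⟩
  · show θ (b (g • t)) = bw T om₀ g (θ (b t))
    rw [hfr.1, hbw]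
  · obtain ⟨a, rfl⟩ := hθj n
    rw [hbw, hc₀, hc₀, hfr.2.1]
  · obtain ⟨a, rfl⟩ := hθj n
    have h1 : ∑ ω, θ (c ω a • b ω) = θ a := by
      rw [← map_sum, hfr.2.2]
    refine Eq.trans (Finset.sum_congr rfl fun ω _ => ?_) h1
    rw [hc₀, hθs]

theorem olu (nbl : NblStmt) (dvd : DvdStmt) (sps : SpsStmt) (nzd : NzdStmt) (rhr : RhrStmt)
    (cna : CnaStmt) : OluStmt := by
  intro ℓ _ R F V A₀ As A K B κ κ' Ω _ _ _ _ _ _ _ _ _ _ _ _ _ _ _ _ _ _ _ _ _ _ _ _ _ _ _ _ _ _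
    W _ cv α₀ lam₀ x₀ y₀ b₀ c₀ f α lam x y b c u C D P m γ q θ Λ xs ys hπ hpV hL hu hu₀ hTr hm
    hqk hθs hθj hθk hθw hθq hRF w
  have hℓ : ℓ.Prime := Fact.out
  have hH : H1P R (aw α W) := by
    intro δ hδ hw
    obtain ⟨e, he, h2⟩ := h1w' R K V A B κ Ω W α lam x y b c C u hu δ hδ
      (fun w hw' => hw ⟨w, hw'⟩)
    exact ⟨e, fun w => he w w.2, h2⟩
  have hfree := fre' R W A (aw α W) D
  have hfin := hfree.1
  have hfr := hfree.2
  have hℓS : ((ℓ : ℕ) : R⟦X⟧) = PowerSeries.C cv.π := by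
    rw [hπ, map_natCast]
  have hsmℓ : ∀ a : D.R, ℓ • a = ((ℓ : ℕ) : R⟦X⟧) • a := fun a =>
    (Nat.cast_smul_eq_nsmul _ ℓ a).symm
  have hCinj : Function.Injective (PowerSeries.C : R →+* R⟦X⟧) :=
    PowerSeries.C_injective
  have hℓne : ((ℓ : ℕ) : R⟦X⟧) ≠ 0 := by
    rw [hℓS, hπ]
    intro h
    have h2 := hCinj (h.trans (map_zero _).symm)
    exact hℓ.ne_zero (Nat.cast_eq_zero.1 h2)
  have hκπ : cv.κ cv.π = 0 := (cv.ker _).2 ⟨1, by rw [mul_one]⟩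
  -- (2) left inverses
  have huw : ∀ w : W, ∃ u' : A, u' * rt x y (α w) = 1 := by
    intro w
    obtain ⟨u₀, hu₀w⟩ := hu₀ w
    exact lft_inv (cv := cv) (rt x y (α w)) (rt x₀ y₀ (α₀ w)) u₀ f (rt_red hL w) hu₀w
  -- (3) the lift
  obtain ⟨u₁, hu₁⟩ := hu₀ 1
  rw [Subgroup.coe_one, map_one] at hu₁
  have hcen := (uzl' R F V A₀ A κ Ω cv α₀ lam₀ x₀ y₀ b₀ c₀ f α lam x y
    b c u₁ hL hu₁).2.2
  let actW : MulAction (W × W) Ω :=
    MulAction.compHom Ω ((Subgroup.subtype W).prodMap (Subgroup.subtype W))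
  have hfrW : FrR (bw R (aw α W)) b c :=
    ⟨fun g t => hL.fr.1 ((g.1 : V), (g.2 : V)) t, fun g t n => hL.fr.2.1 ((g.1 : V), (g.2 : V)) t n,
      hL.fr.2.2⟩
  obtain ⟨cs, hcs, -⟩ := cfr' R W A Ω (aw α W) D b c hfrW
  obtain ⟨cs₀, hcs₀⟩ := red_fr (PowerSeries.map cv.κ) (PowerSeries.map_surjective _ cv.surj) D.w γ
    θ hθs hθj hθw _ cs hcs (by
      intro a ha ω
      obtain ⟨a', rfl⟩ := hθk a ha
      rw [map_smul, smul_eq_mul, map_mul, PowerSeries.map_C, hκπ, map_zero, zero_mul])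
  have hOL : OL ℓ (PowerSeries.map cv.κ) γ D.w θ Λ xs ys := by
    refine ⟨PowerSeries.map_surjective _ cv.surj, ?_, hθs, hθw, ?_, ?_, hRF, ?_, ?_⟩
    · intro d hd
      obtain ⟨m, d', h1, h2⟩ := sps R F cv d hd
      refine ⟨m, d', ?_, h2⟩
      rw [hℓS]
      exact h1
    · intro a ha
      obtain ⟨a', ha'⟩ := hθk a ha
      refine ⟨a', ?_⟩
      rw [hsmℓ, hℓS]
      exact ha'
    · intro a ha
      rw [hsmℓ] at ha
      exact smul_right_injective D.R hℓne (ha.trans (smul_zero _).symm)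
    · exact cna R F V A A₀ As W α cv f D θ q hθs hθj hθq hqk hH hcen
    · exact ⟨Ω, inferInstance, actW, fun ω => D.of (cst (b ω)), cs, cs₀, hcs, hcs₀⟩
  have hF0 : ((ℓ : ℕ) : F⟦X⟧) = 0 := by
    have h : ((ℓ : ℕ) : F⟦X⟧) = PowerSeries.C ((ℓ : ℕ) : F) := (map_natCast _ _).symm
    rw [h, CharP.cast_eq_zero, map_zero]
  refine ⟨?_, ?_⟩
  · -- (4)
    obtain ⟨u', hu'⟩ := huw w
    have hreg := nzd R K V A B κ κ' Ω W α lam x y b c C D P m Λ xs ys w u'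
      hTr hm hRF hu'
    obtain ⟨r', d, hd0, hr'⟩ := dvd R⟦X⟧ D.R (rt xs ys (D.w w)) hreg
    exact nbl ℓ R⟦X⟧ F⟦X⟧ W As D.R κ' (PowerSeries.map cv.κ)
      γ D.w θ Λ xs ys w r' d hF0 (hpV.to_subgroup W) hOL hd0 hr'
  · -- (5)
    obtain ⟨u', hu'⟩ := huw w
    obtain ⟨d, a, ha0, hsum⟩ := rhr R K V A B κ κ' Ω W α lam x y b c C D P m Λ
      xs ys w u u' hTr hm hRF hu hu'
    refine ⟨d, fun i => cv.κ (a i), (ha0.map cv.κ).ne_zero, ?_⟩
    have h := congrArg θ hsum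
    rw [map_sum, map_zero] at h
    refine Eq.trans (Finset.sum_congr rfl fun i _ => ?_) h
    rw [hθs, PowerSeries.map_C, map_mul, map_pow, map_pow]
    have e1 : θ (rt xs ys (D.w w)) = ∑ k, θ (xs k) * γ w * θ (ys k) := by
      unfold rt
      rw [map_sum]
      refine Finset.sum_congr rfl fun k _ => ?_
      rw [map_mul, map_mul, hθw]
    have e2 : θ (rt xs ys 1) = ∑ k, θ (xs k) * θ (ys k) := by
      unfold rt
      rw [map_sum]
      refine Finset.sum_congr rfl fun k _ => ?_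
      rw [mul_one, map_mul]
    rw [e1, e2]

end Pool.Agent.PST.U.H30L
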