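import Pool.Agent.PST.StmtsU

set_option autoImplicit false

namespace Pool.Agent.PST.U.H30P

theorem pwc : PwcStmt := by
  intro ℓ _ L _ a d h k
  let _ : CommRing (Subring.closure ({a, d} : Set L)) := Subring.closureCommRingOfComm (by
    intro x hx y hy
    rcases hx with rfl | rfl <;> rcases hy with rfl | rfl
    · rfl
    · exact h
    · exact h.symm
    · rfl)
  let a' : Subring.closure ({a, d} : Set L) := ⟨a, Subring.subset_closure (by simp)⟩
  let d' : Subring.closure ({a, d} : Set L) := ⟨d, Subring.subset_closure (by simp)⟩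
  have h1 : ((ℓ : ℕ) : Subring.closure ({a, d} : Set L)) ∣ (a' + ℓ * d') - a' := ⟨d', by ring⟩
  obtain ⟨y, hy⟩ := dvd_sub_pow_of_dvd_sub h1 k
  refine ⟨(y : L), ?_⟩
  have h2 := congrArg (Subring.subtype (Subring.closure ({a, d} : Set L))) (sub_eq_iff_eq_add'.1 hy)
  rw [map_pow, map_add, map_add, map_mul, map_mul, map_pow, map_pow, map_natCast] at h2
  rw [nsmul_eq_mul, nsmul_eq_mul, Nat.cast_pow]
  exact h2

end Pool.Agent.PST.U.H30P
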