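import Pool.Agent.Helper30_PST.GFW
import Pool.Agent.Helper30_PST.ETW
import Pool.Agent.Helper30_PST.OLU
import Pool.Agent.Helper30_PST.PWC
import Pool.Agent.Helper89_PST.VNX
import Pool.Agent.Helper5_PST.NBL
import Pool.Agent.Helper82_PST.DVD
import Pool.Agent.Helper70_PST.SPS
import Pool.Agent.Helper49_PST.CRT
import Pool.Agent.Helper8_PST.NZD
import Pool.Agent.Helper12_PST.CHP
import Pool.Agent.Helper26_PST.RHR
import Pool.Agent.Helper26_PST.RTU
import Pool.Agent.Helper49_PST.LIX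
import Pool.Agent.Helper45_PST.CLC
import Pool.Agent.Helper92_PST.BOT
import Pool.Agent.Helper12_PST.FIT
import Pool.Agent.Helper77_PST.UNC
import Pool.Agent.Helper12_PST.UNR
import Pool.Agent.Helper84_PST.CNA
import Pool.Agent.Helper15_PST.PRA
import Pool.Agent.Helper84_PST.QRF
import Pool.Agent.Helper84_PST.ZIJ
import Pool.Agent.Helper78_PST.CLO
import Pool.Agent.Helper27_PST.ADX
import Pool.Agent.Helper85_PST.DEX
import Pool.Agent.Helper52_PST.NKB
import Pool.Agent.Helper56_PST.DZU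
import Pool.Agent.Helper81_PST.LSA
import Pool.Agent.Helper91_PSS.THL
import Pool.Agent.Helper21_PST.NIA
import Pool.Agent.Helper92_PST.CIL
import Pool.Agent.Helper20_PST.QLU
import Pool.Agent.Helper28_PST.QTX
import Pool.Agent.Helper39_PST.QTF
import Pool.Agent.Helper87_PST.QFR
import Pool.Agent.Helper2_PST.QSC
import Pool.Agent.Helper30_PST.QCL
import Pool.Agent.Helper56_PST.BFN
import Pool.Agent.Helper21_PST.PRT
import Pool.Agent.Helper22_PST.QFA
import Pool.Agent.Helper86_PST.HSF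
import Pool.Agent.Helper95_PST.QRG
import Pool.Agent.Helper30_PSS.S3All

/-!
# Squad PST, blocks U, UC, CL: assembly (helper30)
-/

set_option autoImplicit false

noncomputable section

namespace Pool.Agent.PST.UAll

open Pool.Agent.PSS

/-! ## Block CL -/

theorem nkb_ : NkbStmt := H52.nkb All30.bki
theorem dzu_ : DzuStmt := H56.dzu nkb_ All30.bqx All30.bpu All30.mck All30.zrt
theorem lsa_ : LsaStmt := H81.lsa H85.dex dzu_ All30.rfs S2.H91.thl
theorem zij_ : ZijStmt := H84.zij H27.adx lsa_ All30.fco All30.fbk All30.ftr All30.bqx All30.bbk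
  All30.bcl All30.bkf
theorem clo_ : CloStmt := H78.clo zij_ H15.pra H84.qrf All30.qbk All30.bqx All30.bcl All30.bbk
  All30.res

/-! ## Block U -/

theorem crt_ : U.CrtStmt := U.H49.crt U.H30L.fun' U.H30L.rfe' U.H30L.rtc' All30.rfs
theorem nzd_ : U.NzdStmt := U.H8.nzd crt_
theorem rhr_ : U.RhrStmt := U.H26.rhr crt_ U.H12.chp
theorem clc_ : U.ClcStmt := U.H45.clc U.H49.lix
theorem bot_ : U.BotStmt := U.H92.bot U.H49.lix clc_
theorem unc_ : U.UncStmt := U.H77.unc U.H12.fit All30.zrt All30.bqx All30.bpu All30.gfq All30.gfb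
  All30.mck
theorem gfx_ : U.H30.GfxStmt := U.H30.gfx bot_ unc_ U.H12.unr clc_

/-! ## Block UC -/

theorem cil_ : UC.CilStmt := UC.H92.cil UC.H21.nia
theorem qlu_ : UC.QluStmt := UC.H20.qlu UC.H21.nia
theorem qcl_ : UC.QclStmt := UC.H30Q.qcl cil_ UC.H39.qtf UC.H87.qfr UC.H2.qsc

theorem etw_ (etc : ET.EtcStmt) : UC.EtwStmt :=
  UC.H30.etw UC.H21.prt UC.H22.qfa H86.hsf UC.H95.qrg UC.H28.qtx UC.H39.qtf qcl_ UC.H56.bfn qlu_
    All30.bqx All30.bcl H63.psc etc

/-- GFW from the top statement of block ET. -/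
theorem gfw_ (etc : ET.EtcStmt) : GfwStmt :=
  U.H30.gfw gfx_
    (U.H30L.olu (U.H5.nbl U.H89.vnx U.H30P.pwc) H82.dvd U.H70.sps nzd_ rhr_ U.H84.cna)
    clo_ U.H26.rtu (etw_ etc)

end Pool.Agent.PST.UAll
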